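import Pool.Agent.H38.LR.S8.Y882.JR.Core5
import Pool.Agent.H38.LR.S8.Y822.Lin
import Pool.Agent.H38.LR.T3997.Q148.BA.Sums
import Pool.Agent.H38.LR.S8.W366.DC.SFX
import Pool.Agent.H38.LR.T3997.Q120.MG.Stm

/-!
# Job LOW: the linear sieve in intervals beyond the exponent two
-/

set_option autoImplicit false

namespace Pool.Agent.Q210.MG

open Finset Filter
open Pool.Agent.Y882 Pool.Agent.Q120.MG
open Pool.Agent.W23.DC (SF Mer pr tt)

/-- The primes below `z`. -/
theorem PZ_cube (z : ℕ) (hz : 2 ≤ z) : PZ (z ^ 3) (1 / 3) = (range z).filter Nat.Prime := by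
  have hY : 2 ≤ z ^ 3 := hz.trans (Nat.le_self_pow (by norm_num) z)
  have hr : ((z ^ 3 : ℕ) : ℝ) ^ (1 / 3 : ℝ) = z := by
    push_cast
    rw [← Real.rpow_natCast, ← Real.rpow_mul (Nat.cast_nonneg z)]
    norm_num
  ext p
  unfold PZ
  rw [mem_filter, mem_filter, mem_Icc, mem_range]
  constructor
  · rintro ⟨_, h3, h4⟩
    have h5 := (tt_lt (z ^ 3) p (1 / 3) hY h3.pos).1 h4
    rw [hr] at h5
    exact ⟨by exact_mod_cast h5, h3⟩
  · rintro ⟨h1, h3⟩
    refine ⟨⟨h3.one_le, h1.le.trans (Nat.le_self_pow (by norm_num) z)⟩, h3, ?_⟩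
    rw [tt_lt (z ^ 3) p (1 / 3) hY h3.pos, hr]
    exact_mod_cast h1

theorem prod_dvd_iff (T : Finset ℕ) (hT : ∀ p ∈ T, p.Prime) (n : ℕ) :
    (∏ p ∈ T, p) ∣ n ↔ ∀ p ∈ T, p ∣ n := by
  constructor
  · intro h p hp
    exact (dvd_prod_of_mem _ hp).trans h
  · intro h
    exact prod_primes_dvd n (fun p hp => (hT p hp).prime) h

theorem card_mult (a y d : ℕ) (hd : 0 < d) :
    |(((Ioc a (a + y)).filter (fun n => d ∣ n)).card : ℝ) - y / d| ≤ 1 := by
  have h1 : ((Ioc a (a + y)).filter (fun n => d ∣ n)).card + a / d = (a + y) / d := by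
    rw [← Nat.Ioc_filter_dvd_card_eq_div a d, ← Nat.Ioc_filter_dvd_card_eq_div (a + y) d,
      add_comm, ← card_union_of_disjoint]
    · congr 1
      rw [← filter_union, Ioc_union_Ioc_eq_Ioc (Nat.zero_le a) (Nat.le_add_right a y)]
    · rw [disjoint_left]
      intro x hx hx2
      rw [mem_filter, mem_Ioc] at hx hx2
      omega
  have hdr : (0 : ℝ) < d := by exact_mod_cast hd
  have h2 : (((Ioc a (a + y)).filter (fun n => d ∣ n)).card : ℝ) =
      (((a + y) / d : ℕ) : ℝ) - ((a / d : ℕ) : ℝ) := by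
    rw [← h1]
    push_cast
    ring
  have h3 : (((a + y) / d : ℕ) : ℝ) ≤ ((a + y : ℕ) : ℝ) / d := Nat.cast_div_le
  have h4 : ((a / d : ℕ) : ℝ) ≤ (a : ℝ) / d := Nat.cast_div_le
  have h5 : ((a + y : ℕ) : ℝ) / d < (((a + y) / d : ℕ) : ℝ) + 1 := by
    rw [div_lt_iff₀ hdr]
    have := Nat.lt_div_mul_add (a := a + y) hd
    have h6 : a + y < ((a + y) / d + 1) * d := by linarith
    exact_mod_cast h6
  have h6 : (a : ℝ) / d < ((a / d : ℕ) : ℝ) + 1 := by
    rw [div_lt_iff₀ hdr]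
    have := Nat.lt_div_mul_add (a := a) hd
    have h6 : a < (a / d + 1) * d := by linarith
    exact_mod_cast h6
  have h7 : ((a + y : ℕ) : ℝ) / d = (a : ℝ) / d + (y : ℝ) / d := by
    push_cast
    ring
  rw [h2, abs_le]
  constructor <;> linarith

/-- The number of the sets of primes with a bounded product. -/
theorem card_sets_le (P : Finset ℕ) (hP : ∀ p ∈ P, p.Prime) (D : ℝ) (hD : 0 ≤ D)
    (S : Finset (Finset ℕ)) (hS : ∀ T ∈ S, T ⊆ P ∧ ((∏ p ∈ T, p : ℕ) : ℝ) ≤ D) :
    (S.card : ℝ) ≤ D := by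
  have h1 : S.card ≤ (Icc 1 ⌊D⌋₊).card := by
    apply card_le_card_of_injOn (fun T => ∏ p ∈ T, p)
    · intro T hT
      have hT' := hS T hT
      rw [coe_Icc, Set.mem_Icc]
      refine ⟨Nat.one_le_iff_ne_zero.2 ?_, Nat.le_floor hT'.2⟩
      exact (prod_pos fun p hp => (hP p (hT'.1 hp)).pos).ne'
    · intro T hT T' hT' h
      have e1 := Nat.primeFactors_prod (s := T) (fun p hp => hP p ((hS T hT).1 hp))
      have e2 := Nat.primeFactors_prod (s := T') (fun p hp => hP p ((hS T' hT').1 hp))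
      simp only at h
      rw [h] at e1
      exact e1.symm.trans e2
  rw [Nat.card_Icc, Nat.add_sub_cancel] at h1
  exact (Nat.cast_le.2 h1).trans (Nat.floor_le hD)

open Classical in
/-- The sieve inequality. -/
theorem sieve_ineq (z a y : ℕ) (P : Finset ℕ) (hP : P = (range z).filter Nat.Prime)
    (w : Finset ℕ → ℝ) (B D : ℝ) (hB : ∀ T, |w T| ≤ B) (hD : 0 ≤ D)
    (hsup : ∀ T ⊆ P, w T ≠ 0 → ((∏ p ∈ T, p : ℕ) : ℝ) ≤ D)
    (hlow : ∀ N : ℕ, VV P w (fun p => if p ∣ N then 1 else 0) ≤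
      (if ∀ p ∈ P, ¬ p ∣ N then 1 else 0)) :
    y * VV P w (fun p => 1 / (p : ℝ)) - B * D ≤ Wf z a y := by
  have hPp : ∀ p ∈ P, p.Prime := by
    intro p hp
    rw [hP, mem_filter] at hp
    exact hp.2
  have h1 : (Wf z a y : ℝ) = ∑ n ∈ Ioc a (a + y), (if ∀ p ∈ P, ¬ p ∣ n then (1 : ℝ) else 0) := by
    unfold Wf
    rw [card_filter]
    push_cast
    apply sum_congr rfl
    intro n _
    have e : (∀ p : ℕ, p.Prime → p < z → ¬ p ∣ n) ↔ ∀ p ∈ P, ¬ p ∣ n := by
      rw [hP]
      constructor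
      · intro h p hp
        rw [mem_filter, mem_range] at hp
        exact h p hp.2 hp.1
      · intro h p hp hpz
        exact h p (by rw [mem_filter, mem_range]; exact ⟨hpz, hp⟩)
    simp only [e]
  have h2 : ∑ n ∈ Ioc a (a + y), VV P w (fun p => if p ∣ n then (1 : ℝ) else 0) ≤ Wf z a y := by
    rw [h1]
    exact sum_le_sum fun n _ => hlow n
  have h3 : ∑ n ∈ Ioc a (a + y), VV P w (fun p => if p ∣ n then (1 : ℝ) else 0) =
      ∑ T ∈ P.powerset, w T * (((Ioc a (a + y)).filter (fun n => (∏ p ∈ T, p) ∣ n)).card : ℝ) := by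
    unfold VV
    rw [sum_comm]
    apply sum_congr rfl
    intro T hT
    rw [← mul_sum]
    congr 1
    rw [card_filter]
    push_cast
    apply sum_congr rfl
    intro n _
    have hTp : ∀ p ∈ T, p.Prime := fun p hp => hPp p (mem_powerset.1 hT hp)
    by_cases h : (∏ p ∈ T, p) ∣ n
    · rw [if_pos h]
      apply prod_eq_one
      intro p hp
      rw [if_pos ((prod_dvd_iff T hTp n).1 h p hp)]
    · rw [if_neg h]
      rw [prod_dvd_iff T hTp n] at h
      push Not at h
      obtain ⟨p, hp, hpn⟩ := h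
      exact prod_eq_zero hp (if_neg hpn)
  have h4 : y * VV P w (fun p => 1 / (p : ℝ)) =
      ∑ T ∈ P.powerset, w T * ((y : ℝ) / ((∏ p ∈ T, p : ℕ) : ℝ)) := by
    unfold VV
    rw [mul_sum]
    apply sum_congr rfl
    intro T _
    rw [prod_div_distrib, prod_const_one]
    push_cast
    ring
  have h5 : y * VV P w (fun p => 1 / (p : ℝ)) -
      ∑ n ∈ Ioc a (a + y), VV P w (fun p => if p ∣ n then (1 : ℝ) else 0) ≤ B * D := by
    rw [h3, h4, ← sum_sub_distrib]
    set S := P.powerset.filter (fun T => w T ≠ 0) with hS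
    have hcard : (S.card : ℝ) ≤ D := by
      apply card_sets_le P hPp D hD S
      intro T hT
      rw [hS, mem_filter, mem_powerset] at hT
      exact ⟨hT.1, hsup T hT.1 hT.2⟩
    have hB0 : 0 ≤ B := (abs_nonneg _).trans (hB ∅)
    calc ∑ T ∈ P.powerset, (w T * ((y : ℝ) / ((∏ p ∈ T, p : ℕ) : ℝ)) -
          w T * (((Ioc a (a + y)).filter (fun n => (∏ p ∈ T, p) ∣ n)).card : ℝ)) ≤
          ∑ T ∈ P.powerset, (if w T ≠ 0 then B else 0) := by
          apply sum_le_sum
          intro T hT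
          have hTp : ∀ p ∈ T, p.Prime := fun p hp => hPp p (mem_powerset.1 hT hp)
          split_ifs with h
          · have h6 := card_mult a y (∏ p ∈ T, p) (prod_pos fun p hp => (hTp p hp).pos)
            rw [← mul_sub]
            refine (le_abs_self _).trans ?_
            rw [abs_mul, abs_sub_comm]
            calc |w T| * _ ≤ B * 1 := mul_le_mul (hB T) h6 (abs_nonneg _) hB0
              _ = B := mul_one B
          · push Not at h
            rw [h]
            simp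
      _ = S.card * B := by
          rw [← sum_filter, sum_const, nsmul_eq_mul]
      _ ≤ D * B := mul_le_mul_of_nonneg_right hcard hB0
      _ = B * D := mul_comm _ _
  linarith

theorem V1_le_Vf (z : ℕ) : Pool.Agent.Q148.BA.V1 z ≤ Vf z := by
  unfold Pool.Agent.Q148.BA.V1 Vf Pool.Agent.Q148.BA.PP
  have hsub : (range z).filter Nat.Prime ⊆ (Icc 1 z).filter Nat.Prime := by
    intro p hp
    rw [mem_filter, mem_range] at hp
    rw [mem_filter, mem_Icc]
    exact ⟨⟨hp.2.one_le, hp.1.le⟩, hp.2⟩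
  have h0 : ∀ p : ℕ, p.Prime → 0 ≤ 1 - 1 / (p : ℝ) ∧ 1 - 1 / (p : ℝ) ≤ 1 := by
    intro p hp
    have h2 : (2 : ℝ) ≤ p := by exact_mod_cast hp.two_le
    have h3 : 1 / (p : ℝ) ≤ 1 := by
      rw [div_le_one (by linarith)]
      linarith
    have h4 : 0 ≤ 1 / (p : ℝ) := by positivity
    constructor <;> linarith
  rw [← prod_sdiff hsub]
  have h1 : ∏ p ∈ (Icc 1 z).filter Nat.Prime \ (range z).filter Nat.Prime, (1 - 1 / (p : ℝ)) ≤ 1 := by
    apply prod_le_one
    · intro p hp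
      rw [Finset.mem_sdiff, mem_filter] at hp
      exact (h0 p hp.1.2).1
    · intro p hp
      rw [Finset.mem_sdiff, mem_filter] at hp
      exact (h0 p hp.1.2).2
  have h2 : 0 ≤ ∏ p ∈ (range z).filter Nat.Prime, (1 - 1 / (p : ℝ)) := by
    apply prod_nonneg
    intro p hp
    rw [mem_filter] at hp
    exact (h0 p hp.2).1
  exact mul_le_of_le_one_left h2 h1

/-- JOB LOW. -/
theorem low : LOW := by
  intro s hs
  obtain ⟨A0, F, f, hSF⟩ := Pool.Agent.W366.DC.SFX
  set s' : ℝ := min s 3 with hs'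
  have hs1 : 2 < s' := lt_min hs (by norm_num)
  have hs2 : s' ≤ 3 := min_le_right _ _
  have hs3 : s' ≤ s := min_le_left _ _
  set t : ℝ := 2 + (s' - 2) / 3 with ht
  set u : ℝ := 2 + 2 * (s' - 2) / 3 with hu
  have ht2 : 2 < t := by rw [ht]; linarith
  have htu : t < u := by rw [ht, hu]; linarith
  have hus : u < s' := by rw [hu]; linarith
  have hf0 : 0 < f t := by
    rw [hSF.f4 t ht2.le (by linarith)]
    have h1 : 0 < Real.log (t - 1) := Real.log_pos (by linarith)
    have h2 := hSF.pos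
    positivity
  obtain ⟨ε₁, η, hε₁, hε₁ζ, hη, Y0, HC⟩ :=
    Pool.Agent.Y882.JR.core5 1 A0 F f hSF (t / 3) (1 / 3) (u / 3) (f t / 2) (by norm_num)
      (by linarith) (by linarith) (by linarith) (by linarith)
  obtain ⟨N₀, HM⟩ := Pool.Agent.Y822.Lin.mer_of ε₁ (1 / 3) η hε₁ (by norm_num) hη
  obtain ⟨c, C, z1, hc, hC, hz1, HV⟩ := Pool.Agent.Q148.BA.mertens
  have ev1 : ∀ᶠ z : ℕ in atTop, 15 * Real.log z * ((z : ℝ) ^ u) ≤ f t / 4 * (c / Real.log z * (z : ℝ) ^ s') := by
    have h1 := (isLittleO_log_rpow_rpow_atTop 2 (show (0 : ℝ) < s' - u by linarith)).bound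
      (show (0 : ℝ) < f t / 4 * c / 15 by positivity)
    filter_upwards [tendsto_natCast_atTop_atTop.eventually h1, eventually_ge_atTop 2] with z hz hz2
    have hz2r : (2 : ℝ) ≤ z := by exact_mod_cast hz2
    have hlog : 0 < Real.log z := Real.log_pos (by linarith)
    have hz0 : (0 : ℝ) < z := by linarith
    rw [Real.norm_of_nonneg (by positivity), Real.norm_of_nonneg (by positivity), Real.rpow_two] at hz
    have e1 : (z : ℝ) ^ s' = (z : ℝ) ^ (s' - u) * (z : ℝ) ^ u := by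
      rw [← Real.rpow_add hz0]
      congr 1
      ring
    have e2 : 15 * Real.log z * ((z : ℝ) ^ u) = (15 * Real.log z ^ 2) * ((z : ℝ) ^ u / Real.log z) := by
      field_simp
    have e3 : f t / 4 * (c / Real.log z * (z : ℝ) ^ s') =
        (f t / 4 * c * (z : ℝ) ^ (s' - u)) * ((z : ℝ) ^ u / Real.log z) := by
      rw [e1]
      field_simp
    rw [e2, e3]
    apply mul_le_mul_of_nonneg_right _ (by positivity)
    have e4 : f t / 4 * c / 15 * (z : ℝ) ^ (s' - u) * 15 = f t / 4 * c * (z : ℝ) ^ (s' - u) := by ring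
    linarith
  obtain ⟨z2, HE⟩ := eventually_atTop.1 ev1
  refine ⟨f t / 4, by linarith, max (max Y0 N₀) (max (max z1 z2) 2), fun z hz a y hy => ?_⟩
  have hzY : Y0 ≤ z := ((le_max_left _ _).trans (le_max_left _ _)).trans hz
  have hzN : N₀ ≤ z := ((le_max_right _ _).trans (le_max_left _ _)).trans hz
  have hz1' : z1 ≤ z := (((le_max_left _ _).trans (le_max_left _ _)).trans (le_max_right _ _)).trans hz
  have hz2' : z2 ≤ z := (((le_max_right _ _).trans (le_max_left _ _)).trans (le_max_right _ _)).trans hz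
  have hz2 : 2 ≤ z := ((le_max_right _ _).trans (le_max_right _ _)).trans hz
  have hcube : z ≤ z ^ 3 := Nat.le_self_pow (by norm_num) z
  have hz2r : (2 : ℝ) ≤ z := by exact_mod_cast hz2
  have hz0 : (0 : ℝ) < z := by linarith
  have hlog : 0 < Real.log z := Real.log_pos (by linarith)
  obtain ⟨wU, wL, c1, c2, c3, c4⟩ := HC (z ^ 3) (hzY.trans hcube)
  have hPZ := PZ_cube z hz2
  have hpp : ∀ p ∈ PZ (z ^ 3) (1 / 3), p.Prime := by
    intro p hp
    rw [hPZ, mem_filter] at hp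
    exact hp.2
  have hlogY : Real.log ((z ^ 3 : ℕ) : ℝ) = 3 * Real.log z := by
    push_cast
    rw [Real.log_pow]
    norm_num
  have hYu : ((z ^ 3 : ℕ) : ℝ) ^ (u / 3) = (z : ℝ) ^ u := by
    push_cast
    rw [← Real.rpow_natCast, ← Real.rpow_mul hz0.le]
    congr 1
    push_cast
    ring
  have hm := (c4 (fun p => 1 / (p : ℝ)) (fun p _ => by positivity) (fun p hp => by
      have h2 : (2 : ℝ) ≤ p := by exact_mod_cast (hpp p hp).two_le
      rw [div_le_one (by linarith)]
      linarith) (fun p hp _ => by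
      have h2 : (2 : ℝ) ≤ p := by exact_mod_cast (hpp p hp).two_le
      push_cast
      exact one_div_le_one_div_of_le (by linarith) (by linarith)) (HM (z ^ 3) (hzN.trans hcube))).1
  have e1 : t / 3 / (1 / 3) = t := by field_simp
  rw [e1, hPZ] at hm
  have hS := sieve_ineq z a y (PZ (z ^ 3) (1 / 3)) hPZ wL (15 * Real.log z) ((z : ℝ) ^ u)
    (fun T => by
      have h := (c1 T).2
      rw [hlogY] at h
      linarith) (by positivity) (fun T hT h0 => by
      have h := c2 T hT (Or.inr h0)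
      rwa [hYu] at h) (fun N => (c3 N).1)
  rw [hPZ] at hS
  have hVf : Vf z = ∏ p ∈ (range z).filter Nat.Prime, (1 - 1 / (p : ℝ)) := rfl
  rw [← hVf] at hm
  have hV := (HV z hz1').1.trans (V1_le_Vf z)
  have hE := HE z hz2'
  have hys : (z : ℝ) ^ s' ≤ y :=
    (Real.rpow_le_rpow_of_exponent_le (by linarith) hs3).trans hy
  have hVpos : 0 < Vf z := lt_of_lt_of_le (by positivity) hV
  have hmain : f t / 2 * Vf z * y ≤ y * VV ((range z).filter Nat.Prime) wL (fun p => 1 / (p : ℝ)) := by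
    have h1 : (f t - f t / 2) * Vf z = f t / 2 * Vf z := by ring
    rw [h1] at hm
    rw [mul_comm (y : ℝ)]
    exact mul_le_mul_of_nonneg_right hm (Nat.cast_nonneg y)
  have herr : 15 * Real.log z * (z : ℝ) ^ u ≤ f t / 4 * (Vf z * y) := by
    refine hE.trans ?_
    apply mul_le_mul_of_nonneg_left _ (by linarith)
    exact mul_le_mul hV hys (by positivity) hVpos.le
  have h9 : f t / 2 * Vf z * y = f t / 4 * (Vf z * y) + f t / 4 * (Vf z * y) := by ring
  linarith

end Pool.Agent.Q210.MG
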